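import Pool.Agent.X333.DN.Kdf

/-!
MP_410da7_ag, Q1: logarithmic Kodaira dimension and `𝔸¹`-uniruledness of quasi-projective varieties
given by nested sums of high powers of monomials.

Let `X = {F_e = 0 for all e, x_j ≠ 0 for all j in U}` in `ℙⁿ`, `n ≥ 1`, over an algebraically closed
field of characteristic zero, where `U` is any set of coordinates, and the forms `F_e` are nested
sums of powers of monomials, with at most `h + 1` levels, and on each level at most `s` summands and
one exponent, which is at least `(n + 1) (h + 1) (2 s + 1) ^ 5`.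

A variety is given by its function field `K` and its generic point `y` (in homogeneous coordinates).
`SubVarU`, `IsComponentU`, `OffU` (the places whose centre is not on the variety, the boundary),
`KodGe` (the logarithmic Kodaira dimension is at least ...), `Psef` (the log canonical divisor is
pseudo-effective), `Acts`, `Contracts` (`Pool/Agent/W602/GT`), `AffineFamily`
(`Pool/Agent/Y216/SV/Afl.lean`), `MapU` (`Pool/Agent/X333/NM/Alg.lean`), `NestedIn`, `IsMono`
(`Pool/Agent/TH710/ND`).
-/

set_option autoImplicit false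

namespace Pool.Agent.Results.MP_410da7_ag.NestedMonomialLines

open Pool.Agent.W602.GT Pool.Agent.TH710.ND Pool.Agent.X333.NM
open Pool.Agent.Y216.SV (AffineFamily)

/-- Let `X = {F_e = 0, x_j ≠ 0 (j in U)}` be as above.

(1) Let `V` be an irreducible component of `X`, of dimension `w`. The following are equivalent: the
logarithmic Kodaira dimension of `V` is `-∞`; the log canonical divisor is not pseudo-effective;
`V` is `𝔸¹`-uniruled, that is there is a dominant morphism `Y × 𝔸¹ → V`, not constant on the affine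
lines, with `dim Y = dim V - 1`; there is such a morphism for some `Y` of any dimension; `V` is
covered by affine lines `t ↦ (t ^ b_j x_j)`, with `b_j ≥ 0`, and `b_j = 0` for `j` in `U`.

(2) Otherwise the logarithmic Kodaira dimension of `V` is `dim V - p`, where a `p`-dimensional torus
of diagonal matrices acts effectively on `V` (all one-parameter groups with weights `∑ c_l b_l`, `c`
in `ℤ^p`, act on `V`, and they act nontrivially if `c ≠ 0`).

(3) Let `V` be any quasi-projective variety of dimension `w` with a generically finite map to `X`,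
and `y` the image of the generic point. Then there is an affine line `t ↦ (t ^ b_j y_j)` in `X`
through `y`, with `b_j ≥ 0`, and `b_j = 0` for `j` in `U`; or the logarithmic Kodaira dimension of
`V` is at least `dim V - p` for some `p` such that a `p`-dimensional torus of diagonal matrices maps
`y` to points of `{F = 0}`, effectively. -/
theorem result {k : Type} [Field k] [IsAlgClosed k] [CharZero k] {n : ℕ} (hn : 1 ≤ n) {ι : Type}
    {U : Set (Fin (n + 1))} {F : ι → MvPolynomial (Fin (n + 1)) k} {s N h : ℕ}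
    (hF : ∀ e, IsForm (F e) ∧ NestedIn IsMono s N h (F e))
    (hN : (n + 1) * ((h + 1) * (2 * s + 1) ^ 5) ≤ N) :
    (∀ (K : Type) [Field K] [Algebra k K] (w : ℕ) (y : Fin (n + 1) → K), SubVarU U F K w y →
      IsComponentU U F y →
      [¬ KodGe k K w (OffU U y) 0, ¬ Psef k K w (OffU U y), AffineFamily U (k := k) y (w - 1),
        ∃ d, AffineFamily U (k := k) y d, ∃ b, Contracts U k y b].TFAE ∧
      (KodGe k K w (OffU U y) 0 → ∃ (κ p : ℕ) (b : Fin p → Fin (n + 1) → ℤ), κ + p = w ∧
        (∀ c : Fin p → ℤ, Acts U k y fun j => ∑ l, c l * b l j) ∧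
        (∀ c : Fin p → ℤ, (∀ j j', y j ≠ 0 → y j' ≠ 0 →
          ∑ l, c l * b l j = ∑ l, c l * b l j') → c = 0) ∧
        KodGe k K w (OffU U y) κ ∧ ¬ KodGe k K w (OffU U y) (κ + 1))) ∧
    (∀ (K : Type) [Field K] [Algebra k K] (w : ℕ) (y : Fin (n + 1) → K)
      (Bd : FF.Place k K → Prop), MapU U F K w y → (∀ P, OffU U y P → Bd P) →
      (∃ b : Fin (n + 1) → ℕ, (∀ j ∈ U, b j = 0) ∧ (∃ j, y j ≠ 0 ∧ b j = 0) ∧
        (∃ j, y j ≠ 0 ∧ b j ≠ 0) ∧
        ∀ t : K, t ≠ 0 → ∀ e, val (fun j => t ^ b j * y j) (F e) = 0) ∨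
      ∃ (κ p : ℕ) (b : Fin p → Fin (n + 1) → ℤ), κ + p = w ∧
        (∀ (c : Fin p → ℤ) (t : K), t ≠ 0 → ∀ e,
          val (fun j => t ^ (∑ l, c l * b l j) * y j) (F e) = 0) ∧
        (∀ c : Fin p → ℤ, (∀ j j', y j ≠ 0 → y j' ≠ 0 →
          ∑ l, c l * b l j = ∑ l, c l * b l j') → c = 0) ∧
        KodGe k K w Bd κ) := by
  have hN1 : bnd n s h ≤ N := (bnd_le hN).1
  have hN2 : 2 ≤ N := by
    refine le_trans ?_ hN
    have h1 : 1 ≤ (h + 1) * (2 * s + 1) ^ 5 := Nat.one_le_iff_ne_zero.2 (by positivity)
    nlinarith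
  refine ⟨fun K _ _ w y hy hcomp => ⟨Pool.Agent.X333.DN.neg_tfae hF hN2 hN1 hy hcomp,
    fun hk => ?_⟩, fun K _ _ w y Bd hy hBd => Pool.Agent.X333.DN.kod_map hF hN2 hN1 hy hBd⟩
  rcases Pool.Agent.X333.DN.kod_comp hF hN2 hN1 hy hcomp with h1 | h1
  · exact absurd hk (((Pool.Agent.X333.DN.neg_tfae hF hN2 hN1 hy hcomp).out 0 4).2 h1)
  · exact h1

end Pool.Agent.Results.MP_410da7_ag.NestedMonomialLines
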