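import Pool.Agent.X180.OJ.PairBase
import Pool.Agent.X180.OC.OpenDefs

/-!
# Logarithmic Kodaira dimension of open varieties over orbifold bases

Let `X̄` be a normal projective variety, `D` a reduced divisor, `X = X̄ ∖ D`, and let
`κ̄(X) = κ(K_X̄ + D)`; this is the logarithmic Kodaira dimension of `X` if `(X̄, D)` is log smooth. Let

  `X̄ ⇢ W_l ⇢ ... ⇢ W_1 ⇢ W_0`, `l ≥ 0`,

be dominant rational maps. Suppose:

* (the base) for some `m > 0` there are `m`-canonical forms on `W_0`, not all zero, with `k ≥ 0`
  algebraically independent ratios, with poles of order at most `m (1 - 1 / ν)` at the place `p` of the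
  function field of `W_0`, if a prime divisor of `X` lies over `p`, with multiplicity `ν`, and of order
  at most `m` if only components of `D` lie over `p`. That is, the logarithmic Kodaira dimension of
  the orbifold base of `X` over `W_0` is at least `k`. (`W_0` may be a point, then `k = 0`; `W_0` may be
  any rational variety.)
* (the steps of the tower) for each `i < l` the fibres of `W_{i+1}` over `W_i`, of dimension `e_i`,
  *with the multiplicities of the fibres of `X` over `W_{i+1}`*, correspond to the product of one
  orbifold `V_i` (which does not depend on the point of `W_i`) and of moving log canonical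
  arrangements: there are a variety `X'` with a generically finite map `X' ⇢ X̄` (ramified anywhere)
  and a rational map of `X'` to `V_i × P^{r_1} × ... × P^{r_c}`, `r_j ≥ 1`, which is dominant on the
  fibres of `X'` over `W_i`, and whose fibres (over `W_i`) are, up to finite maps, the fibres of
  `X' ⇢ W_{i+1}`; `a (p) ≥ 0` is the log discrepancy of an orbifold divisor at the places `p` of `V_i`
  in the image of the prime divisors of `X̄` (`a (p) = 0` is allowed: logarithmic poles), and the
  Kodaira dimension of `(V_i, a)` is at least `h_i`; in each `P^{r_j}` there are any hyperplanes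
  `A j k = 0`, in any position, which move with the point of a variety finite over `W_i`, with weights
  `w j k ≥ 0`, such that the arrangement is log canonical (the sum of the weights of hyperplanes with a
  common point is at most the codimension of their intersection) and `∑ k, w j k ≥ r_j + 1`. Let `Q` be
  a place of the function field of `X'` over a prime divisor of `X` which dominates `W_i` but not
  `W_{i+1}`, with ramification index `ε`, let `e j k` be the multiplicities of the hyperplanes at `Q`,
  and `R = ∑ (mx_j - ∑ w j k e j k)`, where `mx_j` is the greatest sum of `r_j + 1` of the `e j k`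
  whose hyperplanes have no common point. Then `ε ≤ ν a (p) + R` if `Q` lies over the place `p` of
  `V_i`, with ramification index `ν`; and if `Q` dominates `V_i` then `ε ≤ R`, or `ε ≤ 1` if all `e j k`
  are zero. (No condition at the components of `D`.) Let `λ_i` be the sum of `h_i` and of the `r_j`
  with `∑ k, w j k > r_j + 1`.
* (the fibres of `X̄` over `W_l`) there is a correspondence `X'` as above between `X̄` and a relative
  product `P^{r_1} × ... × P^{r_c}` over `W_l` (`c = 0` is allowed), with log canonical moving hyperplane
  arrangements with weights in `[0, 1]` (with any sum) and `ε ≤ R` (`ε ≤ 1`, if all `e j k` are zero)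
  at the prime divisors of `X` which dominate `W_l`; and at the places over the prime divisors of the
  product `K_X̄ + D` is at most the pull back of the log canonical divisor of the arrangement (`Cor`).
  Let `λ` be the sum of the `r_j` with `∑ k, w j k > r_j + 1`.

Then `κ̄(X) = -∞` if and only if `∑ k, w j k < r_j + 1` for some `j` (for the fibres over `W_l`), if and
only if `K_X̄ + D` is not pseudo-effective, and otherwise

  `κ̄(X) ≥ k + ∑ λ_i + λ`.

If moreover `k = dim W_0` and `λ_i = e_i` for all `i`, then `κ̄(X) = ν(K_X̄ + D) = dim W_l + λ` in this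
case.

So in the case of `∑ k, w j k ≥ r_j + 1` the variety `X` is not `A¹`-uniruled (the known direction of
Q1), while Q1 predicts that it is `A¹`-uniruled in the other case; the theorem decides when
`κ̄(X) = -∞`, in terms of the general fibre of `X` over `W_l` only.

Notation: `X̄` is given by the homogeneous coordinates `y` of its generic point, with values in the
function field `K`; prime divisors are places `P` of `K`, `P.ord` is the order along `P`; `Δ P` is the
coefficient of `P` in `D`. `E i` is the function field of `W_i`. Definitions:
`Pool/Agent/X180/OJ/Defs` (`JointFibres`, `IsTower`), `OJ/PairBaseDefs` (`BaseKodGe`),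
`OC/OpenDefs`, `OP/Defs`.

Proof: the forms of a step are products of the pull backs of the forms of `V_i`, of determinants of
logarithmic derivatives of the linear forms, and of one joint Wronskian of the coordinates of `V_i` and
of the `P^{r_j}`; locally, at `Q`, one compares with the arrangement enlarged by a simplex of
logarithmic coordinates of `V_i` at `p` (`Pool.Agent.X180.OJ.joint_est`). The coefficients are
algebraic over the function field of `W_{i+1}`, and their norms are estimated at the prime divisors of
`X̄` (`Pool.Agent.X180.OJ.joint_part`). The forms of the steps and of the base are multiplied along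
adapted regular vector fields. For the upper bounds, sections of `m (K_X̄ + D) + A` are pulled back to
`X'`; their traces are polynomials of bounded degree in the coordinates of the factors with
`∑ k, w j k = r_j + 1`, and vanish if some `∑ k, w j k < r_j + 1`.
-/

set_option autoImplicit false

open FF Pool.Agent.W602.GT Pool.Agent.Y172 Pool.Agent.Y191 Pool.Agent.X180.OP
open Pool.Agent.X180.OJ
open Pool.Agent.X180.OC (IsCompactification openDivisors)

namespace Pool.Agent.Results.MP_410da7_ag.OpenJointTowers

/-- **Towers of open varieties.** Let `X = X̄ ∖ D` and `X ⇢ W_l ⇢ ... ⇢ W_0` be a tower such that the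
orbifold base of `X` over `W_0` has logarithmic Kodaira dimension at least `k`, the steps are as in
`JointFibres`, of dimensions `e i` and log Kodaira dimensions `lam i`, and the fibres of `X` over `W_l`
are as in `Fibres`. If `r j + 1 ≤ ∑ i, w j i` for all `j` then `κ̄(X) ≥ k + ∑ i, lam i + big`, and if
moreover `k = dim W_0` and `lam i = e i` for all `i`, then `κ̄(X) = ν̄(X) = dim W_l + big`; otherwise
`κ̄(X) = ν̄(X) = -∞`. -/
theorem result (K : Type) [Field K] [Algebra ℂ K] (N l c k : ℕ)
    (E : Fin (l + 1) → IntermediateField ℂ K) (D : Fin (l + 1) → ℕ) (e lam : Fin l → ℕ)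
    (r s : Fin c → ℕ) (y : Fin (N + 1) → K) (Δ : Place ℂ K → ℚ)
    (hy : IsCompactification y (D (Fin.last l) + ∑ j, r j) Δ) [Algebra.EssFiniteType ℂ (E 0)]
    (hY : BaseKodGe {P | IsPrimeDivisor y P} (fun P => (Δ P : ℝ)) (E 0) (D 0) k)
    (hT : IsTower {P | IsPrimeDivisor y P} (fun P => (Δ P : ℝ)) E D e lam)
    (w : ∀ j, Fin (s j) → ℚ)
    (hF : Fibres y (D (Fin.last l) + ∑ j, r j) Δ (openDivisors y Δ) (E (Fin.last l)) r s w) :
    Nonvanishing y (D (Fin.last l) + ∑ j, r j) Δ (k + ∑ i, lam i + big r s w) r s w ∧
      (k = D 0 → (∀ i, lam i = e i) → (∀ j, (r j + 1 : ℚ) ≤ ∑ i, w j i) →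
        kodairaDim y (D (Fin.last l) + ∑ j, r j) Δ =
          ((D (Fin.last l) + big r s w : ℕ) : WithBot ℕ) ∧
        ∀ A, Effective y A → Integral y A → numericalDim y (D (Fin.last l) + ∑ j, r j) Δ A =
          ((D (Fin.last l) + big r s w : ℕ) : EReal)) := by
  have hset : openDivisors y Δ = {P | IsPrimeDivisor y P ∧ Δ P < 1} := by
    ext P
    refine ⟨fun h => ⟨h.1, by rw [h.2]; exact zero_lt_one⟩, fun h => ⟨h.1, ?_⟩⟩
    rcases hy.2 P h.1 with h1 | h1
    · exact h1
    · exact absurd h.2 (by rw [h1]; exact lt_irrefl _)
  rw [hset] at hF
  have hn : D (Fin.last l) + ∑ j, r j = D 0 + (∑ i, e i + ∑ j, r j) := by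
    rw [Pool.Agent.X180.TP.dims fun i => (hT.2 i).2.1, add_assoc]
  have hK : Algebra.trdeg ℂ K = (D 0 + (∑ i, e i + ∑ j, r j) : ℕ) := by
    rw [← hn]
    exact hy.1.2.1
  have hδ : ∀ P ∈ {P | IsPrimeDivisor y P}, (0 : ℝ) ≤ (Δ P : ℝ) := fun P hP =>
    Rat.cast_nonneg.2 (hy.1.2.2.1 P hP)
  refine ⟨tow_non hy.1 hT hF fun lam' h0 => pair_base hK (hT.1 0) hδ hY h0,
    fun hk hle hws => ?_⟩
  subst hk
  exact tow_eq hy.1 hT hle hF (fun lam' h0 => pair_base hK (hT.1 0) hδ hY h0) hws

end Pool.Agent.Results.MP_410da7_ag.OpenJointTowers
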