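import Pool.Agent.X180.OC.Top
import Pool.Agent.X180.OP.Can
import Pool.Agent.X180.OC.OpenDefs

/-!
# The logarithmic Kodaira dimension of towers of open varieties and orbifolds

Let `X = X̄ ∖ D`, where `X̄` is a normal projective variety and `D` is a reduced divisor, and let
`κ̄(X) = κ(X̄, K_X̄ + D)` and `ν̄(X)` the numerical dimension of `K_X̄ + D` (this is the logarithmic
Kodaira dimension of `X`, if `X̄` is smooth and `D` is a divisor with simple normal crossings). Let

  `X ⇢ W_l ⇢ ... ⇢ W_1 ⇢ W_0 = (a point)`, `l ≥ 0`,

be dominant rational maps. Suppose that for each `i < l` one of the following holds, where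
`e_i = dim W_{i+1} - dim W_i`:

* (constant) the fibres of `W_{i+1}` over `W_i`, *with the multiplicities of the fibres of `X` over
  `W_{i+1}`*, correspond to one open variety or orbifold `V_i` of dimension `e_i`: there are a variety
  `X'` with a generically finite map `X' ⇢ X` (ramified anywhere) and a rational map `X' ⇢ V_i` which
  is constant on the fibres of `X' ⇢ W_{i+1}`, and dominant on the fibres of `X' ⇢ W_i`.
  `V_i` has any log canonical boundary `B_i` (the reduced boundary, if `V_i` is an open variety),
  `a (p)` is the log discrepancy of `(V_i, B_i)` at the place `p`, and the Kodaira dimension of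
  `K + B_i` is `λ_i ≥ 0`, or at least `λ_i`. If `Q` is a place of the function field of `X'` over a
  prime divisor `P` *of `X`* which dominates `W_i` but not `W_{i+1}`, with ramification index `ε`, then
  `ε ≤ ν a (p)` if `Q` lies over the place `p` of `V_i`, with ramification index `ν`, and `ε ≤ 1` if
  `Q` dominates `V_i`;
* (orbifold) the fibres of `W_{i+1}` over `W_i`, with the multiplicities of the fibres of `X` over
  `W_{i+1}`, correspond to moving log canonical arrangements: there is a variety `X'` with a
  generically finite map `X' ⇢ X` and a rational map over `W_i` of `X'` to a relative product of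
  projective spaces `P^{r_1} × ... × P^{r_c}`, `r_j ≥ 1`, whose fibres are, up to finite maps, the
  fibres of `X' ⇢ W_{i+1}`; in each `P^{r_j}` there are any hyperplanes `A j k = 0`, in any position,
  which move with the point of a variety finite over `W_i`, with weights `w j k ≥ 0`, such that the
  arrangement is log canonical (the sum of the weights of hyperplanes with a common point is at most
  the codimension of their intersection) and `∑ k, w j k ≥ r_j + 1`. If `Q` is a place of the function
  field of `X'` over a prime divisor `P` of `X` which dominates `W_i` but not `W_{i+1}`, with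
  ramification index `ε`, and `e j k` are the multiplicities of the hyperplanes at `Q`, not all zero,
  then `ε ≤ ∑ (mx_j - ∑ w j k e j k)`, where `mx_j` is the greatest sum of `r_j + 1` of the `e j k`
  whose hyperplanes have no common point (`ε ≤ 1`, if all `e j k` are zero). Let `λ_i` be the sum of
  the `r_j` with `∑ k, w j k > r_j + 1`.

There is no condition at the components of `D`.

Suppose that there is a correspondence `X'` as above between `X` and a relative product
`P^{r_1} × ... × P^{r_c}` over `W_l` (`c = 0` is allowed: then `X ⇢ W_l` is generically finite), with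
log canonical moving hyperplane arrangements with weights in `[0, 1]` (with any sum), the same
condition at the prime divisors of `X` which dominate `W_l`, and (`Cor`) if `Q` is a place of the
function field of `X'` over a prime divisor of the relative product, with ramification index `ρ`, and
with ramification index `ε` over the function field of `X`, then `ρ - ε α ≤ ∑ w j k e j k`, where `α`
is the log discrepancy of `(X̄, D)` at the place below `Q`.
Let `λ` be the sum of the `r_j` with `∑ k, w j k > r_j + 1`.

If `∑ k, w j k ≥ r_j + 1` for all `j` (for the fibres over `W_l`) then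

  `κ̄(X) ≥ λ_0 + λ_1 + ... + λ_{l-1} + λ ≥ 0`,

with equality if `λ_i = e_i` for all `i`, and then also `ν̄(X) = κ̄(X)`; otherwise
`κ̄(X) = ν̄(X) = -∞`.

Relation with the question: in the first case `X` is not `𝔸¹`-uniruled, by the known direction of Q1,
and `κ̄(X) ≥ 0` is Q1 for `X`. (The fibres of `X ⇢ W_l` and all `W_i` may be rational, `W_{i+1}` may
be covered by affine lines over `W_i`, and `V_i` may be rational: only the multiplicities of the
fibres of `X ⇢ W_{i+1}` over the prime divisors of `X` count.)

The language and the definitions of `Pool.Agent.Y172` are used: `X̄` is given by the homogeneous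
coordinates `y` of its generic point, with values in the function field `K`; the prime divisors of
`X̄` are places `P` of `K`, `P.ord` is the order along `P`; `kodairaDim` and `numericalDim` are the
literal definitions of the Kodaira and of the numerical dimension of `K_X̄ + D` by means of the
dimensions of the spaces of sections. `E i` is the function field of `W_i`. Definitions:
`Pool/Agent/X180/OC/Defs` (`ConstantFibres`, `IsTower`), `OpenDefs`, and `Pool/Agent/X180/OP/Defs`.

Proof: for a constant step the products of the pull backs of the pluricanonical forms of `V_i` with a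
Jacobian determinant are algebraic over the function field of `W_{i+1}`, and their norms are estimated
at the prime divisors of `X` (`Pool.Agent.X180.OC.const_part`); for an orbifold step the same is done
with the products of determinants of logarithmic derivatives of the linear forms
(`Pool.Agent.X180.Orb`). The forms of the steps are multiplied along adapted regular vector fields. At
the components of `D` the conditions hold automatically, by an exchange argument for the bases of the
arrangement (`Pool.Agent.X180.OP.lcHor_full`). The upper bounds are those of `Pool.Agent.Y191.lc_ab`.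
-/

set_option autoImplicit false

open FF Pool.Agent.W602.GT Pool.Agent.Y172 Pool.Agent.Y191 Pool.Agent.X180.OP Pool.Agent.X180.OC

namespace Pool.Agent.Results.MP_410da7_ag.OpenOrbifoldTowers

/-- **Towers of open varieties.** Let `X = X̄ ∖ D` and `X ⇢ W_l ⇢ ... ⇢ W_0` be a tower over a point
`W_0`, of which the steps have dimensions `e i` and log Kodaira dimensions `lam i`, with conditions
at the prime divisors of `X` only, and let the fibres of `X` over `W_l` be as in `Fibres`. If
`r j + 1 ≤ ∑ i, w j i` for all `j` then `κ̄(X) ≥ ∑ i, lam i + big`, and if moreover `lam i = e i` for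
all `i`, then `κ̄(X) = ν̄(X) = dim W_l + big`; otherwise `κ̄(X) = ν̄(X) = -∞`. -/
theorem result (K : Type) [Field K] [Algebra ℂ K] (N l c : ℕ)
    (E : Fin (l + 1) → IntermediateField ℂ K) (D : Fin (l + 1) → ℕ) (e lam : Fin l → ℕ)
    (r s : Fin c → ℕ) (y : Fin (N + 1) → K) (Δ : Place ℂ K → ℚ)
    (hy : IsCompactification y (D (Fin.last l) + ∑ j, r j) Δ) (hE0 : E 0 = ⊥)
    (hT : IsTower (openDivisors y Δ) (fun _ => 0) E D e lam) (w : ∀ j, Fin (s j) → ℚ)
    (hF : Fibres y (D (Fin.last l) + ∑ j, r j) Δ (openDivisors y Δ) (E (Fin.last l)) r s w) :
    Nonvanishing y (D (Fin.last l) + ∑ j, r j) Δ (∑ i, lam i + big r s w) r s w ∧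
      ((∀ i, lam i = e i) → (∀ j, (r j + 1 : ℚ) ≤ ∑ i, w j i) →
        kodairaDim y (D (Fin.last l) + ∑ j, r j) Δ =
          ((D (Fin.last l) + big r s w : ℕ) : WithBot ℕ) ∧
        ∀ A, Effective y A → Integral y A → numericalDim y (D (Fin.last l) + ∑ j, r j) Δ A =
          ((D (Fin.last l) + big r s w : ℕ) : EReal)) := by
  have hset : openDivisors y Δ = {P | IsPrimeDivisor y P ∧ Δ P < 1} := by
    ext P
    refine ⟨fun h => ⟨h.1, by rw [h.2]; exact zero_lt_one⟩, fun h => ⟨h.1, ?_⟩⟩
    rcases hy.2 P h.1 with h1 | h1
    · exact h1
    · exact absurd h.2 (by rw [h1]; exact lt_irrefl _)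
  have hT1 : IsTower (openDivisors y Δ) (fun P => (Δ P : ℝ)) E D e lam :=
    tower_congr (fun P hP => by rw [hP.2, Rat.cast_zero]) hT
  rw [hset] at hT1 hF
  have h1 := fun (lam' : ℕ) (h0 : Pool.Agent.X180.Tow.HasForms (D 0 + (∑ i, e i + ∑ j, r j))
    {P | IsPrimeDivisor y P} (Pool.Agent.X180.Iso.hor (E 0) fun P => (Δ P : ℝ)) (E 0)
    (∑ i, e i + ∑ j, r j) lam') => point_base hE0 (hT.1 0) (hor_bot hE0 _ ▸ h0)
  refine ⟨?_, fun hle hws => ?_⟩
  · have h2 := tow_non (k := 0) hy.1 hT1 hF fun lam' h0 => by
      rw [zero_add]
      exact (h1 lam' h0).2
    rwa [zero_add] at h2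
  · refine tow_eq hy.1 hT1 hle hF (fun lam' h0 => ?_) hws
    obtain ⟨h2, h3⟩ := h1 lam' h0
    have h4 : D 0 + lam' = lam' := by rw [h2, zero_add]
    rw [h4]
    exact h3

end Pool.Agent.Results.MP_410da7_ag.OpenOrbifoldTowers
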