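import Pool.Agent.X316.ZU.Lin3

set_option autoImplicit false

open MvPolynomial

namespace Pool.Agent.Results.MP_410da7_ag.ZetaIntegralCurves

open Pool.Agent.X316.ZG (dring JointlyUniversal)
open Pool.Agent.X316.ZU
open Pool.Agent.W602.GT (IsForm coords OffU KodGe)
open Pool.Agent.Y216.SV (AffineFamily)

/-- Affine varieties which are covered by affine lines, or dominated by affine spaces, in terms of
curves with coordinates integral over the ring generated by the zeta function and its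
derivatives. -/
theorem result :
    (∀ (k : Type) [Field k] [Countable k] [Algebra k ℂ] (N w : ℕ) (K : Type) [Field K] [Algebra k K]
      (y : Fin (N + 1) → K), y 0 ≠ 0 → coords k y = ⊤ → Algebra.trdeg k K = w →
      List.TFAE [∃ d : ℕ, AffineFamily {0} (k := k) y d,
        ∃ f, CurveIn k (intS (fun _ : Unit => riemannZeta)) y f ∧ DenseOverk k y f,
        ∃ f x, CurveIn k (intS (fun _ : Unit => riemannZeta)) y f ∧ GenericPoint k y x ∧
          Through f x,
        ∀ x, GenericPoint k y x → ∃ f,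
          CurveIn k (dring (fun _ : Unit => riemannZeta) : Set (ℂ → ℂ)) y f ∧ Through f x,
        ∃ (ι : Type) (u : ι → ℂ → ℂ) (f : Fin (N + 1) → ℂ → ℂ), JointlyUniversal u ∧
          CurveIn k (intS u) y f ∧ DenseOverk k y f,
        ∀ (ι : Type) (u : ι → ℂ → ℂ), Nonempty ι → JointlyUniversal u → ∀ x, GenericPoint k y x →
          ∃ f, CurveIn k (dring u : Set (ℂ → ℂ)) y f ∧ Through f x] ∧
      ((∃ d : ℕ, AffineFamily {0} (k := k) y d) → ¬ KodGe k K w (OffU {0} y) 0)) ∧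
    ∀ (N w : ℕ) (K : Type) [Field K] [Algebra ℂ K] (y : Fin (N + 1) → K), y 0 ≠ 0 →
      coords ℂ y = ⊤ → Algebra.trdeg ℂ K = w → 0 < w →
      List.TFAE [∃ m, DomBy ℂ y m,
        DomBy ℂ y w,
        ∃ f, CurveIn ℂ (dring (fun _ : Unit => riemannZeta) : Set (ℂ → ℂ)) y f ∧ DenseOverk ℂ y f,
        ∃ f, CurveIn ℂ (intS (fun _ : Unit => riemannZeta)) y f ∧ DenseOverk ℂ y f,
        ∃ (ι : Type) (u : ι → ℂ → ℂ) (f : Fin (N + 1) → ℂ → ℂ), JointlyUniversal u ∧
          CurveIn ℂ (intS u) y f ∧ DenseOverk ℂ y f,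
        ∀ (ι : Type) (u : ι → ℂ → ℂ), Nonempty ι → JointlyUniversal u →
          ∃ f, CurveIn ℂ (dring u : Set (ℂ → ℂ)) y f ∧ DenseOverk ℂ y f] ∧
      (DomBy ℂ y w → AffineFamily {0} (k := ℂ) y (w - 1) ∧ ¬ KodGe ℂ K w (OffU {0} y) 0) := by
  refine ⟨?_, ?_⟩
  · intro k _ _ _ N w K _ _ y h0 hgen hdim
    refine ⟨lines_tfae h0 hgen, ?_⟩
    rintro ⟨d, hA⟩
    have hch : CharZero k := (algebraMap k ℂ).charZero
    refine Pool.Agent.Y216.SV.not_kod_of_affine (fun h => h0 (congrFun h 0)) ?_ hgen hdim hA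
    rintro j rfl
    exact h0
  · intro N w K _ _ y h0 hgen hdim hw
    refine ⟨dom_tfae h0 hgen hdim hw, fun hD => ?_⟩
    have hA := lines_of_dom h0 hgen hdim hw hD
    refine ⟨hA, Pool.Agent.Y216.SV.not_kod_of_affine (fun h => h0 (congrFun h 0)) ?_ hgen hdim hA⟩
    rintro j rfl
    exact h0

end Pool.Agent.Results.MP_410da7_ag.ZetaIntegralCurves
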